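import Pool.Agent.Y518.HN.Two

/-!
# Hessian nilpotent power series without the vanishing property: all dimensions and all orders

Complete answer to the question for which numbers `n` of variables and which orders `r` there is a
Hessian nilpotent power series, not a polynomial, of order at least `r`, for which the vanishing
property fails: exactly for `n ≥ 3` (every `r`), and for `n = 2` and `r ≤ 1`.

Idea. If `Q` is harmonic and its gradient is isotropic (then all powers of `Q` are harmonic) and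
`ℓ = ∑ a_i z_i` is a linear form with `∑ a_i ^ 2 = 0`, then
`Δ ^ m (ℓ + Q) ^ (m + 1) = 2 ^ m (m + 1)! ∂_a ^ m Q`. In three variables such `Q` are given by the
implicit equation `s = z_1 + i z_2 + 2 z_3 s ^ K - (z_1 - i z_2) s ^ (2 K)` (a null curve which
touches the isotropic direction to the order `K`), the linear terms of `s` and `ℓ = - z_1 - i z_2`
cancel, and `s - z_1 - i z_2` has order at least `K + 1`.
-/

set_option autoImplicit false

namespace Pool.Agent.Results.MP_03a7fb_al.AllDimensions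

open MvPowerSeries

/-- The Laplace operator on formal power series in `n` variables. -/
noncomputable def laplacian {n : ℕ} (P : MvPowerSeries (Fin n) ℂ) : MvPowerSeries (Fin n) ℂ :=
  ∑ i : Fin n, pderiv ℂ i (pderiv ℂ i P)

/-- The Hessian matrix of a formal power series in `n` variables. -/
noncomputable def hessian {n : ℕ} (P : MvPowerSeries (Fin n) ℂ) :
    Matrix (Fin n) (Fin n) (MvPowerSeries (Fin n) ℂ) :=
  Matrix.of fun i j => pderiv ℂ i (pderiv ℂ j P)

/-- `P` is a polynomial. -/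
def IsPoly {n : ℕ} (P : MvPowerSeries (Fin n) ℂ) : Prop :=
  ∃ p : MvPolynomial (Fin n) ℂ, (p : MvPowerSeries (Fin n) ℂ) = P

/-- `P` is a Hessian nilpotent power series, not a polynomial, without terms of degree below `r`,
and `Δ ^ m P ^ (m + 1) ≠ 0` for all `m`. -/
def IsExample (n r : ℕ) (P : MvPowerSeries (Fin n) ℂ) : Prop :=
  ¬ IsPoly P ∧ (r : ℕ∞) ≤ P.order ∧ IsNilpotent (hessian P) ∧
    ∀ m : ℕ, laplacian^[m] (P ^ (m + 1)) ≠ 0

/-- **Complete answer.** (1) In `n` variables there is a Hessian nilpotent power series `P`, not a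
polynomial, without terms of degree below `r`, such that `Δ ^ m P ^ (m + 1) ≠ 0` for infinitely
many `m`, if and only if `n ≥ 3`, or `n = 2` and `r ≤ 1`.
(2) For `n ≥ 3` and `K ≥ 1` there is a power series `s` with
`s = z_1 + i z_2 + 2 z_3 s ^ K - (z_1 - i z_2) s ^ (2 K)`, and `P = s - (z_1 + i z_2)` is an example
without terms of degree below `K + 1` such that `Δ ^ m P ^ (m + 1) ≠ 0` for all `m`
(`z_1, z_2, z_3` are any three of the variables).
(3) For `n ≥ 2` such an example without constant term is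
`P = z_1 - i z_2 + 1 / (1 - z_1 - i z_2) - 1`.
(4) If `P` is a Hessian nilpotent power series in two variables without terms of degree below two
then `Δ ^ m P ^ (m + 1) = 0` for all `m ≥ 1`.
(5) Hessian nilpotent power series in one variable are polynomials. -/
theorem result :
    (∀ n r : ℕ, (∃ P : MvPowerSeries (Fin n) ℂ, ¬ IsPoly P ∧ (r : ℕ∞) ≤ P.order ∧
      IsNilpotent (hessian P) ∧ ∀ N : ℕ, ∃ m, N ≤ m ∧ laplacian^[m] (P ^ (m + 1)) ≠ 0) ↔
        (3 ≤ n ∨ (n = 2 ∧ r ≤ 1))) ∧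
    (∀ (n : ℕ) (i₁ i₂ i₃ : Fin n), i₁ ≠ i₂ → i₁ ≠ i₃ → i₂ ≠ i₃ → ∀ K : ℕ, 1 ≤ K →
      ∃ s P : MvPowerSeries (Fin n) ℂ,
        s = (X i₁ + C Complex.I * X i₂) + 2 * X i₃ * s ^ K -
          (X i₁ - C Complex.I * X i₂) * s ^ (2 * K) ∧
        P = s - (X i₁ + C Complex.I * X i₂) ∧ IsExample n (K + 1) P) ∧
    (∀ (n : ℕ) (i₁ i₂ : Fin n), i₁ ≠ i₂ → ∃ q P : MvPowerSeries (Fin n) ℂ,
        q * (1 - (X i₁ + C Complex.I * X i₂)) = 1 ∧
        P = (X i₁ - C Complex.I * X i₂) + (q - 1) ∧ IsExample n 1 P) ∧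
    (∀ P : MvPowerSeries (Fin 2) ℂ, (2 : ℕ∞) ≤ P.order → IsNilpotent (hessian P) →
      ∀ m : ℕ, 1 ≤ m → laplacian^[m] (P ^ (m + 1)) = 0) ∧
    (∀ P : MvPowerSeries (Fin 1) ℂ, IsNilpotent (hessian P) → IsPoly P) := by
  have hvv : ∀ (n : ℕ) (i₁ i₂ : Fin n), Pool.Agent.Y518.HN.vv i₁ i₂ =
      X i₁ - C Complex.I * X i₂ := by
    intro n i₁ i₂
    unfold Pool.Agent.Y518.HN.vv
    rw [map_neg]
    ring
  have h3 : ∀ (n : ℕ) (i₁ i₂ i₃ : Fin n), i₁ ≠ i₂ → i₁ ≠ i₃ → i₂ ≠ i₃ → ∀ K : ℕ, 1 ≤ K →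
      ∃ s P : MvPowerSeries (Fin n) ℂ,
        s = (X i₁ + C Complex.I * X i₂) + 2 * X i₃ * s ^ K -
          (X i₁ - C Complex.I * X i₂) * s ^ (2 * K) ∧
        P = s - (X i₁ + C Complex.I * X i₂) ∧ IsExample n (K + 1) P := by
    intro n i₁ i₂ i₃ h12 h13 h23 K hK
    obtain ⟨s, P, hs, hP, hex⟩ := Pool.Agent.Y518.HN.three_ex i₁ i₂ i₃ h12 h13 h23 K hK
    rw [hvv] at hs
    exact ⟨s, P, hs, hP, hex⟩
  have h2 : ∀ (n : ℕ) (i₁ i₂ : Fin n), i₁ ≠ i₂ → ∃ q P : MvPowerSeries (Fin n) ℂ,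
        q * (1 - (X i₁ + C Complex.I * X i₂)) = 1 ∧
        P = (X i₁ - C Complex.I * X i₂) + (q - 1) ∧ IsExample n 1 P := by
    intro n i₁ i₂ h12
    obtain ⟨q, P, hq, hP, hex⟩ := Pool.Agent.Y518.HN.two_ex i₁ i₂ h12
    rw [hvv] at hP
    exact ⟨q, P, hq, hP, hex⟩
  refine ⟨?_, h3, h2, fun P hP hn m hm => Pool.Agent.Y518.HN.two_vanish hP hn hm,
    fun P hn => Pool.Agent.Y518.HN.one_poly hn⟩
  intro n r
  constructor
  · rintro ⟨P, hpoly, hord, hnil, hinf⟩
    rcases n with _ | _ | _ | n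
    · exact (hpoly (Pool.Agent.Y518.HN.zero_poly P)).elim
    · exact (hpoly (Pool.Agent.Y518.HN.one_poly hnil)).elim
    · right
      refine ⟨rfl, ?_⟩
      by_contra hr
      have h4 : (2 : ℕ∞) ≤ P.order := by
        refine le_trans ?_ hord
        exact_mod_cast (by omega : 2 ≤ r)
      obtain ⟨m, hm, hne⟩ := hinf 1
      exact hne (Pool.Agent.Y518.HN.two_vanish h4 hnil hm)
    · left
      omega
  · rintro (h | ⟨rfl, hr⟩)
    · obtain ⟨s, P, -, -, h4, h5, h6, h7⟩ := h3 n ⟨0, by omega⟩ ⟨1, by omega⟩ ⟨2, by omega⟩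
        (by simp) (by simp) (by simp) (r + 1) (by omega)
      refine ⟨P, h4, le_trans ?_ h5, h6, fun N => ⟨N, le_rfl, h7 N⟩⟩
      exact_mod_cast (by omega : r ≤ r + 1 + 1)
    · obtain ⟨q, P, -, -, h4, h5, h6, h7⟩ := h2 2 0 1 (by decide)
      refine ⟨P, h4, le_trans ?_ h5, h6, fun N => ⟨N, le_rfl, h7 N⟩⟩
      exact_mod_cast hr

end Pool.Agent.Results.MP_03a7fb_al.AllDimensions
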